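import Pool.Agent.H.MP_2786f0_ag.C.Val

/-!
# Reduction of a solution over a valuation ring
-/

namespace Pool.Agent.H.MP_2786f0_ag

open Polynomial

/-- A polynomial with coefficients in a valuation subring. -/
theorem exists_lift {K : Type*} [Field K] (O : ValuationSubring K) (g : K[X]) (n : ℕ)
    (hn : g.natDegree ≤ n) (h : ∀ m, g.coeff m ∈ O) :
    ∃ G : O[X], G.map (algebraMap O K) = g ∧ G.natDegree ≤ n := by
  refine ⟨∑ m ∈ Finset.range (n + 1), C (⟨g.coeff m, h m⟩ : O) * X ^ m, ?_, ?_⟩
  · rw [Polynomial.map_sum]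
    conv_rhs => rw [g.as_sum_range_C_mul_X_pow' (Nat.lt_succ_of_le hn)]
    refine Finset.sum_congr rfl fun m _ => ?_
    rw [Polynomial.map_mul, Polynomial.map_pow, map_C, map_X]
    rfl
  · refine natDegree_sum_le_of_forall_le _ _ fun m hm => ?_
    refine (natDegree_C_mul_X_pow_le _ _).trans ?_
    have := Finset.mem_range.1 hm
    omega

/-- Change of rings in the value of a polynomial at univariate polynomials. -/
theorem aeval_map_map {R S : Type*} [CommRing R] [CommRing S] {N : ℕ} (f : R →+* S)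
    (F : MvPolynomial (Fin N) R) (G : Fin N → R[X]) :
    MvPolynomial.aeval (fun i => (G i).map f) (MvPolynomial.map f F) =
      (MvPolynomial.aeval G F).map f := by
  induction F using MvPolynomial.induction_on with
  | C r => simp
  | add p q hp hq => simp only [map_add, hp, hq, Polynomial.map_add]
  | mul_X p i hp => simp only [map_mul, hp, Polynomial.map_mul, MvPolynomial.map_X,
      MvPolynomial.aeval_X]

theorem aeval_comp' {R S : Type*} [CommRing R] [CommRing S] [Algebra R S] {N : ℕ}
    (F : MvPolynomial (Fin N) R) (g : Fin N → S[X]) (q : S[X]) :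
    MvPolynomial.aeval (fun i => (g i).comp q) F = (MvPolynomial.aeval g F).comp q := by
  induction F using MvPolynomial.induction_on with
  | C r =>
    rw [MvPolynomial.aeval_C, MvPolynomial.aeval_C, Polynomial.algebraMap_apply, C_comp]
  | add p q hp hq => simp only [map_add, hp, hq, Polynomial.add_comp]
  | mul_X p i hp => simp only [map_mul, hp, Polynomial.mul_comp, MvPolynomial.aeval_X]

/-- The coefficient of `X ^ (n - 1)` after a translation. -/
theorem coeff_comp_pred {R : Type*} [CommRing R] (p : R[X]) (n : ℕ) (hn : 1 ≤ n)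
    (hp : p.natDegree ≤ n) (γ : R) :
    (p.comp (X + C γ)).coeff (n - 1) = p.coeff (n - 1) + n * γ * p.coeff n := by
  conv_lhs => rw [p.as_sum_range_C_mul_X_pow' (Nat.lt_succ_of_le hp)]
  rw [Polynomial.sum_comp, finsetSum_coeff]
  have h1 : ∀ m ∈ Finset.range (n + 1), ((C (p.coeff m) * X ^ m).comp (X + C γ)).coeff (n - 1) =
      p.coeff m * (γ ^ (m - (n - 1)) * (m.choose (n - 1) : R)) := by
    intro m _
    rw [mul_comp, C_comp, X_pow_comp, coeff_C_mul, coeff_X_add_C_pow]
  rw [Finset.sum_congr rfl h1, Finset.sum_range_succ]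
  obtain ⟨n, rfl⟩ : ∃ n', n = n' + 1 := ⟨n - 1, by omega⟩
  rw [Nat.add_sub_cancel, Finset.sum_range_succ, Finset.sum_eq_zero]
  · rw [Nat.sub_self, pow_zero, Nat.choose_self, Nat.add_sub_cancel_left, pow_one,
      Nat.choose_succ_self_right]
    push_cast
    ring
  · intro m hm
    rw [Nat.choose_eq_zero_of_lt (Finset.mem_range.1 hm)]
    simp

theorem coeff_comp_top {R : Type*} [CommRing R] (p : R[X]) (n : ℕ)
    (hp : p.natDegree ≤ n) (γ : R) :
    (p.comp (X + C γ)).coeff n = p.coeff n := by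
  conv_lhs => rw [p.as_sum_range_C_mul_X_pow' (Nat.lt_succ_of_le hp)]
  rw [Polynomial.sum_comp, finsetSum_coeff]
  have h1 : ∀ m ∈ Finset.range (n + 1), ((C (p.coeff m) * X ^ m).comp (X + C γ)).coeff n =
      p.coeff m * (γ ^ (m - n) * (m.choose n : R)) := by
    intro m _
    rw [mul_comp, C_comp, X_pow_comp, coeff_C_mul, coeff_X_add_C_pow]
  rw [Finset.sum_congr rfl h1, Finset.sum_range_succ, Finset.sum_eq_zero]
  · simp
  · intro m hm
    rw [Nat.choose_eq_zero_of_lt (Finset.mem_range.1 hm)]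
    simp

/-- The reflected polynomial has small degree. -/
theorem natDegree_reflect_le' {R : Type*} [CommRing R] (p : R[X]) (n : ℕ) (hp : p.natDegree ≤ n) :
    (p.reflect n).natDegree ≤ n := by
  rw [natDegree_le_iff_coeff_eq_zero]
  intro m hm
  rw [coeff_reflect, revAt_eq_self_of_lt hm]
  exact coeff_eq_zero_of_natDegree_lt (lt_of_le_of_lt hp hm)

theorem reflect_pow_linear {R : Type*} [CommRing R] (γ : R) (n : ℕ) :
    ((X - C γ : R[X]) ^ n).reflect n = (1 - C γ * X) ^ n := by
  induction n with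
  | zero => simp
  | succ n ih =>
    have h1 : (X - C γ : R[X]).reflect 1 = 1 - C γ * X := by
      rw [reflect_sub, reflect_one_X, reflect_C, pow_one]
    have h2 : (X - C γ : R[X]).natDegree ≤ 1 := natDegree_X_sub_C_le γ
    have h3 : ((X - C γ : R[X]) ^ n).natDegree ≤ n := by
      have := natDegree_pow_le_of_le n h2
      rwa [mul_one] at this
    rw [pow_succ, reflect_mul _ _ h3 h2, ih, h1, pow_succ]

/-- **Reduction.** A solution `g` over an algebraically closed field with a valuation ring `O`, which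
is not of the form `p_i (α X + β) ^ (a i)`, gives a solution over the residue field with the properties
used in `no_common_root`. -/
theorem reduce {K : Type*} [Field K] [IsAlgClosed K] (O : ValuationSubring K) {N c : ℕ}
    (a : Fin N → ℕ) (ha : ∀ i, 1 ≤ a i) (d : Fin c → ℕ) (F : Fin c → MvPolynomial (Fin N) O)
    (hF : ∀ j, (F j).IsWeightedHomogeneous a (d j))
    (hinf : Infinite (IsLocalRing.ResidueField O))
    (hX : ∀ x : Fin N → IsLocalRing.ResidueField O, x ≠ 0 →
      (∀ j, MvPolynomial.eval x (MvPolynomial.map (IsLocalRing.residue O) (F j)) = 0) →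
      ∀ r : ℕ, (∀ i, x i ≠ 0 → r ∣ a i) → r = 1)
    (g : Fin N → K[X]) (hg : ∀ i, (g i).natDegree ≤ a i)
    (hgF : ∀ j, MvPolynomial.aeval g (MvPolynomial.map (algebraMap O K) (F j)) = 0)
    (hB : ∀ (p : Fin N → K) (α β : K), ¬ ∀ i, g i = C (p i) * (C α * X + C β) ^ a i) :
    ∃ (φ : Fin N → (IsLocalRing.ResidueField O)[X]) (i₀ i₁ : Fin N) (m : ℕ),
      (∀ i, (φ i).natDegree ≤ a i) ∧
      (∀ j, MvPolynomial.aeval φ (MvPolynomial.map (IsLocalRing.residue O) (F j)) = 0) ∧
      (φ i₀).coeff (a i₀) ≠ 0 ∧ ((a i₀ : ℕ) : IsLocalRing.ResidueField O) ≠ 0 ∧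
      (φ i₀).coeff (a i₀ - 1) = 0 ∧ m < a i₁ ∧ (φ i₁).coeff m ≠ 0 := by
  classical
  have hinj : Function.Injective (algebraMap O K) := Subtype.val_injective
  have hFmap : ∀ j, (MvPolynomial.map (algebraMap O K) (F j)).IsWeightedHomogeneous a (d j) := by
    intro j m hm
    apply hF j
    intro h
    rw [MvPolynomial.coeff_map, h, map_zero] at hm
    exact hm rfl
  have hresu : ∀ x : O, O.valuation (x : K) = 1 → IsLocalRing.residue O x ≠ 0 := by
    intro x hx h
    rw [IsLocalRing.residue_eq_zero_iff] at h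
    have h1 := (O.valuation_lt_one_iff x).1 h
    rw [hx] at h1
    exact lt_irrefl _ h1
  -- Step 1: scaling
  have hg0 : ∃ s : Σ i : Fin N, Fin (a i + 1), (g s.1).coeff s.2 ≠ 0 := by
    by_contra hcon
    push Not at hcon
    refine hB (fun _ => 0) 0 0 fun i => ?_
    rw [C_0, zero_mul]
    ext m
    rw [coeff_zero]
    by_cases hm : m < a i + 1
    · exact hcon ⟨i, ⟨m, hm⟩⟩
    · exact coeff_eq_zero_of_natDegree_lt (by have := hg i; omega)
  obtain ⟨l, hl0, hl, s, hs⟩ := exists_scale O (fun s : Σ i : Fin N, Fin (a i + 1) =>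
    (g s.1).coeff s.2) (fun s => a s.1) (fun s => ha _) hg0
  have hG : ∀ i, ∃ G : O[X], G.map (algebraMap O K) = C (l ^ a i) * g i ∧ G.natDegree ≤ a i := by
    intro i
    refine exists_lift O _ (a i) ((natDegree_C_mul_le _ _).trans (hg i)) fun m => ?_
    rw [coeff_C_mul]
    by_cases hm : m < a i + 1
    · exact hl ⟨i, ⟨m, hm⟩⟩
    · rw [coeff_eq_zero_of_natDegree_lt (by have := hg i; omega), mul_zero]
      exact O.zero_mem
  choose G hG1 hG2 using hG
  have hGF : ∀ j, MvPolynomial.aeval G (F j) = 0 := by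
    intro j
    apply Polynomial.map_injective _ hinj
    rw [← aeval_map_map, Polynomial.map_zero]
    have h1 : (fun i => (G i).map (algebraMap O K)) = fun i => (C l) ^ a i * g i := by
      funext i
      rw [hG1 i, C_pow]
    rw [h1, aeval_scale a (d j) _ (hFmap j), hgF j, mul_zero]
  -- Step 2: a point where the reduction does not vanish
  obtain ⟨β, i₂, hβ⟩ : ∃ (β : O) (i₂ : Fin N),
      ((G i₂).map (IsLocalRing.residue O)).eval (IsLocalRing.residue O β) ≠ 0 := by
    have h1 : (G s.1).map (IsLocalRing.residue O) ≠ 0 := by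
      intro h
      have h2 : ((G s.1).map (IsLocalRing.residue O)).coeff s.2 = 0 := by rw [h, coeff_zero]
      rw [coeff_map] at h2
      refine hresu _ ?_ h2
      have h3 : (((G s.1).coeff s.2 : O) : K) = l ^ a s.1 * (g s.1).coeff s.2 := by
        rw [← coeff_C_mul, ← hG1, coeff_map]
        rfl
      rw [h3]
      exact hs
    obtain ⟨r, hr⟩ : ∃ r, ((G s.1).map (IsLocalRing.residue O)).eval r ≠ 0 := by
      by_contra hcon
      push Not at hcon
      exact h1 (Polynomial.funext fun r => by rw [hcon r, eval_zero])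
    obtain ⟨β, rfl⟩ := IsLocalRing.residue_surjective r
    exact ⟨β, s.1, hr⟩
  -- Step 3: reflection
  set H : Fin N → O[X] := fun i => ((G i).comp (X + C β)).reflect (a i) with hH
  have hGc : ∀ i, ((G i).comp (X + C β)).natDegree ≤ a i := by
    intro i
    refine natDegree_comp_le.trans ?_
    refine (Nat.mul_le_mul (hG2 i) (natDegree_X_add_C β).le).trans ?_
    rw [mul_one]
  have hH2 : ∀ i, (H i).natDegree ≤ a i := fun i => natDegree_reflect_le' _ _ (hGc i)
  have hHF : ∀ j, MvPolynomial.aeval H (F j) = 0 := by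
    intro j
    rw [hH, aeval_reflect a (d j) (F j) (hF j) _ hGc, aeval_comp', hGF j, zero_comp,
      reflect_zero]
  have hHtop : ∀ i, (H i).coeff (a i) = (G i).eval β := by
    intro i
    rw [hH]
    show (((G i).comp (X + C β)).reflect (a i)).coeff (a i) = _
    rw [coeff_reflect, revAt_le le_rfl, Nat.sub_self, coeff_zero_eq_eval_zero, eval_comp]
    simp
  -- Step 4: the index `i₀`
  set p : Fin N → IsLocalRing.ResidueField O := fun i => IsLocalRing.residue O ((H i).coeff (a i))
    with hp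
  have hp0 : p ≠ 0 := by
    intro h
    apply hβ
    have h1 := congrFun h i₂
    rw [hp] at h1
    beta_reduce at h1
    rw [hHtop i₂] at h1
    rw [eval_map, eval₂_hom]
    exact h1
  have hpF : ∀ j, MvPolynomial.eval p (MvPolynomial.map (IsLocalRing.residue O) (F j)) = 0 := by
    intro j
    have h1 := (aeval_degree' a (d j) (F j) (hF j) H hH2).2
    rw [hHF j, coeff_zero] at h1
    rw [MvPolynomial.eval_map, hp]
    have h2 := congrArg (IsLocalRing.residue O) h1.symm
    rw [map_zero] at h2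
    rw [← h2, MvPolynomial.aeval_def, MvPolynomial.eval₂_comp_left (IsLocalRing.residue O)]
    rfl
  obtain ⟨i₀, hpi, hai⟩ : ∃ i, p i ≠ 0 ∧ ((a i : ℕ) : IsLocalRing.ResidueField O) ≠ 0 := by
    by_contra hcon
    push Not at hcon
    have h1 := hX p hp0 hpF (ringChar (IsLocalRing.ResidueField O))
      (fun i hi => (ringChar.spec _ (a i)).1 (hcon i hi))
    exact CharP.ringChar_ne_one h1
  -- Step 5: translation
  have hunit : ∀ x : O, IsLocalRing.residue O x ≠ 0 → IsUnit x := by
    intro x hx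
    by_contra h
    apply hx
    rw [IsLocalRing.residue_eq_zero_iff]
    exact (IsLocalRing.mem_maximalIdeal x).2 h
  obtain ⟨γ, hγ⟩ : ∃ γ : O, (H i₀).coeff (a i₀ - 1) + (a i₀ : O) * γ * (H i₀).coeff (a i₀) = 0 := by
    have h1 : IsUnit ((a i₀ : O) * (H i₀).coeff (a i₀)) := by
      apply hunit
      rw [map_mul, map_natCast]
      exact mul_ne_zero hai hpi
    obtain ⟨v, hv⟩ := h1
    refine ⟨-((H i₀).coeff (a i₀ - 1)) * ((v⁻¹ : Oˣ) : O), ?_⟩
    have h2 : (a i₀ : O) * (-((H i₀).coeff (a i₀ - 1)) * ((v⁻¹ : Oˣ) : O)) *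
        (H i₀).coeff (a i₀) = -((H i₀).coeff (a i₀ - 1)) * (((v⁻¹ : Oˣ) : O) * (v : O)) := by
      rw [hv]
      ring
    rw [h2, Units.inv_mul, mul_one, add_neg_cancel]
  set T : Fin N → O[X] := fun i => (H i).comp (X + C γ) with hT
  have hTdeg : ∀ i, (T i).natDegree ≤ a i := by
    intro i
    refine natDegree_comp_le.trans ?_
    refine (Nat.mul_le_mul (hH2 i) (natDegree_X_add_C γ).le).trans ?_
    rw [mul_one]
  have hTF : ∀ j, MvPolynomial.aeval T (F j) = 0 := by
    intro j
    rw [hT, aeval_comp', hHF j, zero_comp]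
  have hTtop : ∀ i, (T i).coeff (a i) = (H i).coeff (a i) := fun i =>
    coeff_comp_top _ _ (hH2 i) γ
  have hTpred : (T i₀).coeff (a i₀ - 1) = 0 := by
    rw [hT]
    beta_reduce
    rw [coeff_comp_pred _ _ (ha i₀) (hH2 i₀) γ]
    exact hγ
  -- Step 6: some lower coefficient
  have hlow : ∃ s : Σ i : Fin N, Fin (a i), (((T s.1).coeff s.2 : O) : K) ≠ 0 := by
    by_contra hcon
    push Not at hcon
    have h1 : ∀ i, T i = C ((H i).coeff (a i)) * X ^ a i := by
      intro i
      ext m
      rw [coeff_C_mul_X_pow]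
      rcases lt_trichotomy m (a i) with h | h | h
      · rw [if_neg h.ne]
        have h2 := hcon ⟨i, ⟨m, h⟩⟩
        exact_mod_cast h2
      · rw [if_pos h, h, hTtop]
      · rw [if_neg h.ne']
        exact_mod_cast coeff_eq_zero_of_natDegree_lt (lt_of_le_of_lt (hTdeg i) h)
    have h2 : ∀ i, H i = C ((H i).coeff (a i)) * (X - C γ) ^ a i := by
      intro i
      have h3 : H i = (T i).comp (X - C γ) := by
        rw [hT]
        beta_reduce
        rw [comp_assoc, add_comp, X_comp, C_comp, sub_add_cancel, comp_X]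
      conv_lhs => rw [h3, h1 i, mul_comp, C_comp, X_pow_comp]
    have h3 : ∀ i, (G i).comp (X + C β) = C ((H i).coeff (a i)) * (1 - C γ * X) ^ a i := by
      intro i
      have h4 : (G i).comp (X + C β) = (H i).reflect (a i) := by
        rw [hH]
        beta_reduce
        rw [reflect_reflect]
      rw [h4]
      conv_lhs => rw [h2 i]
      rw [reflect_C_mul, reflect_pow_linear]
    have h4 : ∀ i, G i = C ((H i).coeff (a i)) * (1 - C γ * (X - C β)) ^ a i := by
      intro i
      have h5 : G i = ((G i).comp (X + C β)).comp (X - C β) := by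
        rw [comp_assoc, add_comp, X_comp, C_comp, sub_add_cancel, comp_X]
      rw [h5, h3 i, mul_comp, C_comp, pow_comp, sub_comp, one_comp, mul_comp, C_comp, X_comp]
    refine hB (fun i => (l ^ a i)⁻¹ * (((H i).coeff (a i) : O) : K)) (-(γ : K))
      (1 + (γ : K) * (β : K)) fun i => ?_
    have h5 : C (l ^ a i) * g i = C ((((H i).coeff (a i) : O) : K)) *
        (C (-(γ : K)) * X + C (1 + (γ : K) * (β : K))) ^ a i := by
      rw [← hG1 i]
      conv_lhs => rw [h4 i]
      rw [Polynomial.map_mul, Polynomial.map_pow, map_C, Polynomial.map_sub, Polynomial.map_one,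
        Polynomial.map_mul, Polynomial.map_sub, map_C, map_C, map_X]
      congr 2
      have h6 : algebraMap O K γ = (γ : K) := rfl
      have h7 : algebraMap O K β = (β : K) := rfl
      rw [h6, h7, C_neg, C_add, C_mul, C_1]
      ring
    have h6 : C ((l ^ a i)⁻¹) * (C (l ^ a i) * g i) = g i := by
      rw [← mul_assoc, ← C_mul, inv_mul_cancel₀ (pow_ne_zero _ hl0), C_1, one_mul]
    rw [← h6, h5, ← mul_assoc, ← C_mul]
  -- Step 7: scaling
  obtain ⟨μ, hμ0, hμ, s', hs'⟩ := exists_scale O (fun s : Σ i : Fin N, Fin (a i) =>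
    (((T s.1).coeff s.2 : O) : K)) (fun s => a s.1 - s.2) (fun s => by
      have := s.2.2
      omega) hlow
  have hLc : ∀ i m, m ≤ a i → (C (μ ^ a i) * ((T i).map (algebraMap O K)).comp
      (C μ⁻¹ * X)).coeff m = μ ^ (a i - m) * (((T i).coeff m : O) : K) := by
    intro i m hm
    rw [coeff_C_mul, comp_C_mul_X_coeff, coeff_map]
    have h1 : μ ^ a i = μ ^ (a i - m) * μ ^ m := by
      rw [← pow_add, Nat.sub_add_cancel hm]
    have h2 : μ ^ m * μ⁻¹ ^ m = 1 := by
      rw [← mul_pow, mul_inv_cancel₀ hμ0, one_pow]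
    rw [h1]
    calc μ ^ (a i - m) * μ ^ m * (algebraMap O K ((T i).coeff m) * μ⁻¹ ^ m)
        = μ ^ (a i - m) * algebraMap O K ((T i).coeff m) * (μ ^ m * μ⁻¹ ^ m) := by ring
      _ = _ := by rw [h2, mul_one]; rfl
  have hLdeg : ∀ i, (C (μ ^ a i) * ((T i).map (algebraMap O K)).comp
      (C μ⁻¹ * X)).natDegree ≤ a i := by
    intro i
    refine (natDegree_C_mul_le _ _).trans (natDegree_comp_le.trans ?_)
    refine (Nat.mul_le_mul (natDegree_map_le.trans (hTdeg i)) ((natDegree_C_mul_le _ _).trans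
      natDegree_X_le)).trans ?_
    rw [mul_one]
  have hL : ∀ i, ∃ L : O[X], L.map (algebraMap O K) = C (μ ^ a i) *
      ((T i).map (algebraMap O K)).comp (C μ⁻¹ * X) ∧ L.natDegree ≤ a i := by
    intro i
    refine exists_lift O _ (a i) (hLdeg i) fun m => ?_
    rcases lt_trichotomy m (a i) with h | h | h
    · rw [hLc i m h.le]
      exact hμ ⟨i, ⟨m, h⟩⟩
    · rw [hLc i m h.le, h, Nat.sub_self, pow_zero, one_mul]
      exact Subtype.mem _
    · rw [coeff_eq_zero_of_natDegree_lt (lt_of_le_of_lt (hLdeg i) h)]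
      exact O.zero_mem
  choose L hL1 hL2 using hL
  have hLcoeff : ∀ i m, m ≤ a i → (((L i).coeff m : O) : K) =
      μ ^ (a i - m) * (((T i).coeff m : O) : K) := by
    intro i m hm
    rw [← hLc i m hm, ← hL1 i, coeff_map]
    rfl
  have hLF : ∀ j, MvPolynomial.aeval L (F j) = 0 := by
    intro j
    apply Polynomial.map_injective _ hinj
    rw [← aeval_map_map, Polynomial.map_zero]
    have h1 : (fun i => (L i).map (algebraMap O K)) = fun i => (C μ) ^ a i *
        ((T i).map (algebraMap O K)).comp (C μ⁻¹ * X) := by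
      funext i
      rw [hL1 i, C_pow]
    rw [h1, aeval_scale a (d j) _ (hFmap j), aeval_comp', aeval_map_map, hTF j,
      Polynomial.map_zero, zero_comp, mul_zero]
  refine ⟨fun i => (L i).map (IsLocalRing.residue O), i₀, s'.1, s'.2, fun i =>
    natDegree_map_le.trans (hL2 i), ?_, ?_, hai, ?_, s'.2.2, ?_⟩
  · intro j
    rw [aeval_map_map, hLF j, Polynomial.map_zero]
  · rw [coeff_map]
    have h1 : (L i₀).coeff (a i₀) = (H i₀).coeff (a i₀) := by
      apply Subtype.val_injective
      rw [hLcoeff i₀ (a i₀) le_rfl, Nat.sub_self, pow_zero, one_mul, hTtop]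
    rw [h1]
    exact hpi
  · rw [coeff_map]
    have h1 : (L i₀).coeff (a i₀ - 1) = 0 := by
      apply Subtype.val_injective
      rw [hLcoeff i₀ (a i₀ - 1) (Nat.sub_le _ _), hTpred]
      simp
    rw [h1, map_zero]
  · rw [coeff_map]
    apply hresu
    rw [hLcoeff _ _ s'.2.2.le]
    exact hs'

end Pool.Agent.H.MP_2786f0_ag
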