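import Pool.Agent.H.MP_2786f0_ag.C.Root
import Pool.Agent.H.MP_2786f0_ag.C.Reduce

/-!
# From a solution over an extension field to a curve of degree one
-/

namespace Pool.Agent.H.MP_2786f0_ag

open Polynomial

/-- The polynomials with unknown coefficients. -/
noncomputable def gen2 {k : Type*} [Field k] {N : ℕ} (a : Fin N → ℕ) (i : Fin N) :
    (MvPolynomial (Σ i : Fin N, Fin (a i + 1)) k)[X] :=
  ∑ m : Fin (a i + 1), C (MvPolynomial.X ⟨i, m⟩) * X ^ (m : ℕ)

/-- The polynomials with coefficients `x`. -/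
noncomputable def spec2 {S : Type*} [CommRing S] {N : ℕ} (a : Fin N → ℕ)
    (x : (Σ i : Fin N, Fin (a i + 1)) → S) (i : Fin N) : S[X] :=
  ∑ m : Fin (a i + 1), C (x ⟨i, m⟩) * X ^ (m : ℕ)

theorem spec2_natDegree {S : Type*} [CommRing S] {N : ℕ} (a : Fin N → ℕ)
    (x : (Σ i : Fin N, Fin (a i + 1)) → S) (i : Fin N) : (spec2 a x i).natDegree ≤ a i := by
  refine natDegree_sum_le_of_forall_le _ _ fun m _ => ?_
  refine (natDegree_C_mul_X_pow_le _ _).trans ?_
  have := m.2
  omega

theorem spec2_coeff {S : Type*} [CommRing S] {N : ℕ} (a : Fin N → ℕ)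
    (x : (Σ i : Fin N, Fin (a i + 1)) → S) (i : Fin N) (m : Fin (a i + 1)) :
    (spec2 a x i).coeff m = x ⟨i, m⟩ := by
  rw [spec2, finsetSum_coeff, Finset.sum_eq_single m]
  · rw [coeff_C_mul_X_pow, if_pos rfl]
  · intro b _ hb
    rw [coeff_C_mul_X_pow, if_neg]
    intro h
    exact hb (Fin.ext h.symm)
  · simp

theorem spec2_self {S : Type*} [CommRing S] {N : ℕ} (a : Fin N → ℕ) (φ : Fin N → S[X])
    (hφ : ∀ i, (φ i).natDegree ≤ a i) : spec2 a (fun s => (φ s.1).coeff s.2) = φ := by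
  funext i
  ext m
  by_cases hm : m < a i + 1
  · exact spec2_coeff a _ i ⟨m, hm⟩
  · rw [coeff_eq_zero_of_natDegree_lt (lt_of_le_of_lt (spec2_natDegree a _ i) (by omega)),
      coeff_eq_zero_of_natDegree_lt (lt_of_le_of_lt (hφ i) (by omega))]

theorem aeval_gen2 {k S : Type*} [Field k] [CommRing S] [Algebra k S] {N : ℕ} (a : Fin N → ℕ)
    (F : MvPolynomial (Fin N) k) (x : (Σ i : Fin N, Fin (a i + 1)) → S) (n : ℕ) :
    MvPolynomial.aeval x ((MvPolynomial.aeval (gen2 (k := k) a) F).coeff n) =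
      (MvPolynomial.aeval (spec2 a x) F).coeff n := by
  have h1 : mapAlgHom (MvPolynomial.aeval x) (MvPolynomial.aeval (gen2 (k := k) a) F) =
      MvPolynomial.aeval (spec2 a x) F := by
    rw [← AlgHom.comp_apply, MvPolynomial.comp_aeval]
    congr 2
    funext i
    rw [gen2, spec2, coe_mapAlgHom, Polynomial.map_sum]
    refine Finset.sum_congr rfl fun m _ => ?_
    rw [Polynomial.map_mul, Polynomial.map_pow, map_C, map_X]
    simp
  rw [← h1, coe_mapAlgHom, coeff_map]
  rfl

/-- A solution over an extension field descends. -/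
theorem descend_solution {k κ : Type*} [Field k] [IsAlgClosed k] [Field κ] [Algebra k κ] {N c : ℕ}
    (a : Fin N → ℕ) (F : Fin c → MvPolynomial (Fin N) k) (φ : Fin N → κ[X])
    (hφ : ∀ i, (φ i).natDegree ≤ a i) (hφF : ∀ j, MvPolynomial.aeval φ (F j) = 0)
    (i₀ i₁ : Fin N) (m : ℕ) (h0 : (φ i₀).coeff (a i₀) ≠ 0) (h1 : (φ i₀).coeff (a i₀ - 1) = 0)
    (hm : m < a i₁) (h2 : (φ i₁).coeff m ≠ 0) :
    ∃ ψ : Fin N → k[X], (∀ i, (ψ i).natDegree ≤ a i) ∧ (∀ j, MvPolynomial.aeval ψ (F j) = 0) ∧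
      (ψ i₀).coeff (a i₀) ≠ 0 ∧ (ψ i₀).coeff (a i₀ - 1) = 0 ∧ (ψ i₁).coeff m ≠ 0 := by
  obtain ⟨y, hy1, hy2⟩ := descent
    (P := fun s : (Fin c × ℕ) ⊕ Unit => Sum.elim
      (fun s : Fin c × ℕ => (MvPolynomial.aeval (gen2 (k := k) a) (F s.1)).coeff s.2)
      (fun _ => (MvPolynomial.X ⟨i₀, ⟨a i₀ - 1, by omega⟩⟩ :
        MvPolynomial (Σ i : Fin N, Fin (a i + 1)) k)) s)
    (Q := MvPolynomial.X ⟨i₀, ⟨a i₀, by omega⟩⟩ * MvPolynomial.X ⟨i₁, ⟨m, by omega⟩⟩)
    (x := fun s : Σ i : Fin N, Fin (a i + 1) => (φ s.1).coeff s.2)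
    (by
      rintro (⟨j, n⟩ | _)
      · show MvPolynomial.aeval _ ((MvPolynomial.aeval (gen2 (k := k) a) (F j)).coeff n) = 0
        rw [aeval_gen2, spec2_self a φ hφ, hφF j, coeff_zero]
      · show MvPolynomial.aeval _ (MvPolynomial.X _) = 0
        rw [MvPolynomial.aeval_X]
        exact h1)
    (by
      rw [map_mul, MvPolynomial.aeval_X, MvPolynomial.aeval_X]
      exact mul_ne_zero h0 h2)
  rw [map_mul, MvPolynomial.eval_X, MvPolynomial.eval_X] at hy2
  refine ⟨spec2 a y, spec2_natDegree a y, ?_, ?_, ?_, ?_⟩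
  · intro j
    ext n
    rw [coeff_zero, ← aeval_gen2]
    exact hy1 (Sum.inl ⟨j, n⟩)
  · rw [spec2_coeff a y i₀ ⟨a i₀, by omega⟩]
    exact left_ne_zero_of_mul hy2
  · rw [spec2_coeff a y i₀ ⟨a i₀ - 1, by omega⟩]
    have h3 := hy1 (Sum.inr ())
    rwa [Sum.elim_inr, MvPolynomial.eval_X] at h3
  · rw [spec2_coeff a y i₁ ⟨m, by omega⟩]
    exact right_ne_zero_of_mul hy2

/-- The condition on orbifold points over an extension field. -/
theorem orbifold_free_extend {k κ : Type*} [Field k] [IsAlgClosed k] [Field κ] [Algebra k κ]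
    {N c : ℕ} (a : Fin N → ℕ) (F : Fin c → MvPolynomial (Fin N) k)
    (hX : ∀ x : Fin N → k, x ≠ 0 → (∀ j, MvPolynomial.eval x (F j) = 0) →
      ∀ r : ℕ, (∀ i, x i ≠ 0 → r ∣ a i) → r = 1)
    (x : Fin N → κ) (hx : x ≠ 0) (hF : ∀ j, MvPolynomial.aeval x (F j) = 0) (r : ℕ)
    (hr : ∀ i, x i ≠ 0 → r ∣ a i) : r = 1 := by
  obtain ⟨l, hl⟩ : ∃ l, x l ≠ 0 := by
    by_contra hcon
    push Not at hcon
    exact hx (funext hcon)
  obtain ⟨y, hy1, hy2⟩ := descent
    (P := fun s : Fin c ⊕ {i : Fin N // ¬ r ∣ a i} => Sum.elim F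
      (fun i => (MvPolynomial.X i.1 : MvPolynomial (Fin N) k)) s)
    (Q := MvPolynomial.X l) (x := x)
    (by
      rintro (j | ⟨i, hi⟩)
      · exact hF j
      · show MvPolynomial.aeval _ (MvPolynomial.X i) = 0
        rw [MvPolynomial.aeval_X]
        by_contra h
        exact hi (hr i h))
    (by
      rw [MvPolynomial.aeval_X]
      exact hl)
  rw [MvPolynomial.eval_X] at hy2
  refine hX y (fun h => hy2 (congrFun h l)) (fun j => hy1 (Sum.inl j)) r fun i hi => ?_
  by_contra h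
  have h1 := hy1 (Sum.inr ⟨i, h⟩)
  rw [Sum.elim_inr, MvPolynomial.eval_X] at h1
  exact hi h1

/-- **Compactness.** A solution for the system `(1 - t) F0 + t F` over an extension field, `t`
transcendental, gives a curve of degree one for `F`. -/
theorem compactness {k L : Type*} [Field k] [IsAlgClosed k] [Field L] [IsAlgClosed L] [Algebra k L]
    {N c : ℕ} (a : Fin N → ℕ) (ha : ∀ i, 1 ≤ a i) (d : Fin c → ℕ)
    (F0 F : Fin c → MvPolynomial (Fin N) k) (hF0 : ∀ j, (F0 j).IsWeightedHomogeneous a (d j))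
    (hF : ∀ j, (F j).IsWeightedHomogeneous a (d j))
    (hX : ∀ x : Fin N → k, x ≠ 0 → (∀ j, MvPolynomial.eval x (F j) = 0) →
      ∀ r : ℕ, (∀ i, x i ≠ 0 → r ∣ a i) → r = 1)
    (t : L) (ht : Transcendental k t) (g : Fin N → L[X]) (hg : ∀ i, (g i).natDegree ≤ a i)
    (hgF : ∀ j, MvPolynomial.aeval g (MvPolynomial.C (1 - t) *
      MvPolynomial.map (algebraMap k L) (F0 j) + MvPolynomial.C t *
      MvPolynomial.map (algebraMap k L) (F j)) = 0)
    (hB : ∀ (p : Fin N → L) (α β : L), ¬ ∀ i, g i = C (p i) * (C α * X + C β) ^ a i) :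
    ∃ f : Fin N → MvPolynomial (Fin 2) k, (∀ i, (f i).IsHomogeneous (a i)) ∧
      (∀ u : Fin 2 → k, u ≠ 0 → ∃ i, MvPolynomial.eval u (f i) ≠ 0) ∧
      (∀ j, MvPolynomial.aeval f (F j) = 0) := by
  -- the valuation ring
  set A : Subring L := (aeval t : k[X] →ₐ[k] L).toRingHom.range with hA
  have hAmem : ∀ q : k[X], aeval t q ∈ A := fun q => ⟨q, rfl⟩
  have htA : t - 1 ∈ A := by
    have := hAmem (X - 1)
    simpa using this
  obtain ⟨O, hAO, hI⟩ := Ideal.image_subset_nonunits_valuationSubring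
    (Ideal.span {(⟨t - 1, htA⟩ : A)}) (by
      rw [Ne, Ideal.eq_top_iff_one, Ideal.mem_span_singleton']
      rintro ⟨⟨_, q, rfl⟩, hq⟩
      have h1 := congrArg Subtype.val hq
      have h2 : aeval t (q * (X - 1)) = aeval t (1 : k[X]) := by
        rw [map_mul, map_sub, aeval_X, map_one]
        exact h1
      have h3 := (transcendental_iff_injective.1 ht) h2
      have h4 := congrArg (eval 1) h3
      simp at h4)
  have hkO : ∀ s : k, algebraMap k L s ∈ O := fun s => hAO (by
    have := hAmem (C s)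
    rwa [aeval_C] at this)
  have htO : t ∈ O := hAO (by
    have := hAmem X
    rwa [aeval_X] at this)
  set fO : k →+* O := (algebraMap k L).codRestrict O.toSubring hkO with hfO
  set tO : O := ⟨t, htO⟩ with htO'
  have htres : IsLocalRing.residue O tO = 1 := by
    have h1 : (t - 1 : L) ∈ O.nonunits := hI ⟨⟨t - 1, htA⟩, Ideal.subset_span rfl, rfl⟩
    have h2 : tO - 1 ∈ IsLocalRing.maximalIdeal O := O.coe_mem_nonunits_iff.1 h1
    rw [← IsLocalRing.residue_eq_zero_iff, map_sub, map_one, sub_eq_zero] at h2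
    exact h2
  let algκ : Algebra k (IsLocalRing.ResidueField O) := ((IsLocalRing.residue O).comp fO).toAlgebra
  have halg : algebraMap k (IsLocalRing.ResidueField O) = (IsLocalRing.residue O).comp fO := rfl
  have hinf : Infinite (IsLocalRing.ResidueField O) := by
    have := IsAlgClosed.instInfinite (K := k)
    exact Infinite.of_injective _ (algebraMap k (IsLocalRing.ResidueField O)).injective
  -- the equations over the valuation ring
  set FO : Fin c → MvPolynomial (Fin N) O := fun j => MvPolynomial.C (1 - tO) *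
    MvPolynomial.map fO (F0 j) + MvPolynomial.C tO * MvPolynomial.map fO (F j) with hFO
  have hmapL : ∀ G : MvPolynomial (Fin N) k, MvPolynomial.map (algebraMap O L)
      (MvPolynomial.map fO G) = MvPolynomial.map (algebraMap k L) G := by
    intro G
    rw [MvPolynomial.map_map]
    rfl
  have hFOL : ∀ j, MvPolynomial.map (algebraMap O L) (FO j) = MvPolynomial.C (1 - t) *
      MvPolynomial.map (algebraMap k L) (F0 j) + MvPolynomial.C t *
      MvPolynomial.map (algebraMap k L) (F j) := by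
    intro j
    rw [hFO]
    simp only [map_add, map_mul, MvPolynomial.map_C, hmapL, map_sub, map_one]
    rfl
  have hFOκ : ∀ j, MvPolynomial.map (IsLocalRing.residue O) (FO j) =
      MvPolynomial.map (algebraMap k (IsLocalRing.ResidueField O)) (F j) := by
    intro j
    rw [hFO]
    simp only [map_add, map_mul, MvPolynomial.map_C, map_sub, map_one, htres, sub_self, zero_mul,
      zero_add, one_mul, MvPolynomial.map_map, halg]
  have hFOhom : ∀ j, (FO j).IsWeightedHomogeneous a (d j) := by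
    intro j m hm
    by_contra hne
    apply hm
    rw [hFO]
    beta_reduce
    rw [MvPolynomial.coeff_add, MvPolynomial.coeff_C_mul, MvPolynomial.coeff_C_mul,
      MvPolynomial.coeff_map, MvPolynomial.coeff_map]
    have h1 : MvPolynomial.coeff m (F0 j) = 0 := by
      by_contra h
      exact hne (hF0 j h)
    have h2 : MvPolynomial.coeff m (F j) = 0 := by
      by_contra h
      exact hne (hF j h)
    rw [h1, h2, map_zero, mul_zero, mul_zero, add_zero]
  obtain ⟨φ, i₀, i₁, m, h1, h2, h3, h4, h5, h6, h7⟩ := reduce O a ha d FO hFOhom hinf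
    (fun x hx hxF r hr => by
      refine orbifold_free_extend (κ := IsLocalRing.ResidueField O) a F hX x hx (fun j => ?_) r hr
      have h := hxF j
      rw [hFOκ j, MvPolynomial.eval_map] at h
      exact h) g hg (fun j => by rw [hFOL j]; exact hgF j) hB
  obtain ⟨ψ, g1, g2, g3, g4, g5⟩ := descend_solution (κ := IsLocalRing.ResidueField O) a F φ h1
    (fun j => by
      have h := h2 j
      rw [hFOκ j, MvPolynomial.aeval_map_algebraMap] at h
      exact h) i₀ i₁ m h3 h5 h6 h7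
  have ha0 : ((a i₀ : ℕ) : k) ≠ 0 := by
    intro h
    apply h4
    rw [← map_natCast (algebraMap k (IsLocalRing.ResidueField O)), h, map_zero]
  exact exists_forms a d F hF ψ g1 g2 i₀ g3
    (no_common_root a ha d F hF hX ψ g1 g2 i₀ g3 ha0 g4 i₁ m h6 g5)

end Pool.Agent.H.MP_2786f0_ag
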