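import Pool.Agent.H.MP_2786f0_ag.Line

/-!
# Substitutions in weighted homogeneous polynomials, and descent of solutions
-/

namespace Pool.Agent.H.MP_2786f0_ag

open Polynomial

/-- The value of a weighted homogeneous polynomial at `(s ^ (a i) * h i)`. -/
theorem aeval_scale {R S : Type*} [CommRing R] [CommRing S] [Algebra R S] {N : ℕ} (a : Fin N → ℕ)
    (d : ℕ) (F : MvPolynomial (Fin N) R) (hF : F.IsWeightedHomogeneous a d) (s : S)
    (h : Fin N → S) :
    MvPolynomial.aeval (fun i => s ^ a i * h i) F = s ^ d * MvPolynomial.aeval h F := by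
  rw [MvPolynomial.aeval_def, MvPolynomial.aeval_def, MvPolynomial.eval₂_eq',
    MvPolynomial.eval₂_eq', Finset.mul_sum]
  refine Finset.sum_congr rfl fun m hm => ?_
  have h0 := hF (MvPolynomial.mem_support_iff.1 hm)
  rw [Finsupp.weight_apply, Finsupp.sum_fintype _ _ (fun _ => by simp)] at h0
  have h1 : ∏ i, (s ^ a i * h i) ^ m i = s ^ d * ∏ i, h i ^ m i := by
    rw [← h0, ← Finset.prod_pow_eq_pow_sum, ← Finset.prod_mul_distrib]
    refine Finset.prod_congr rfl fun i _ => ?_
    rw [mul_pow, ← pow_mul, smul_eq_mul, mul_comm (a i)]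
  rw [h1]
  ring

/-- The value at the reflected polynomials. -/
theorem aeval_reflect {R S : Type*} [CommRing R] [CommRing S] [Algebra R S] {N : ℕ}
    (a : Fin N → ℕ) (d : ℕ) (F : MvPolynomial (Fin N) R) (hF : F.IsWeightedHomogeneous a d)
    (g : Fin N → S[X]) (hg : ∀ i, (g i).natDegree ≤ a i) :
    MvPolynomial.aeval (fun i => (g i).reflect (a i)) F = (MvPolynomial.aeval g F).reflect d := by
  have hpow : ∀ (i : Fin N) (n : ℕ), ((g i) ^ n).reflect (n * a i) = ((g i).reflect (a i)) ^ n := by
    intro i n
    induction n with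
    | zero => simp
    | succ n ih =>
      rw [pow_succ, Nat.succ_mul, reflect_mul _ _ (natDegree_pow_le_of_le _ (hg i)) (hg i), ih,
        pow_succ]
  have hprod : ∀ (m : Fin N →₀ ℕ), (∏ i, g i ^ m i).reflect (∑ i, m i * a i) =
      ∏ i, ((g i).reflect (a i)) ^ m i := by
    classical
    intro m
    have : ∀ s : Finset (Fin N), (∏ i ∈ s, g i ^ m i).reflect (∑ i ∈ s, m i * a i) =
        ∏ i ∈ s, ((g i).reflect (a i)) ^ m i := by
      intro s
      induction s using Finset.induction_on with
      | empty => simp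
      | insert i s hi ih =>
        rw [Finset.prod_insert hi, Finset.sum_insert hi, Finset.prod_insert hi,
          reflect_mul _ _ (natDegree_pow_le_of_le _ (hg i))
            ((natDegree_prod_le _ _).trans (Finset.sum_le_sum fun i _ =>
              natDegree_pow_le_of_le _ (hg i))), ih, hpow]
    exact this _
  rw [MvPolynomial.aeval_def, MvPolynomial.aeval_def, MvPolynomial.eval₂_eq',
    MvPolynomial.eval₂_eq']
  have hsum : ∀ (s : Finset (Fin N →₀ ℕ)) (f : (Fin N →₀ ℕ) → S[X]),
      (∑ m ∈ s, f m).reflect d = ∑ m ∈ s, (f m).reflect d := by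
    classical
    intro s f
    induction s using Finset.induction_on with
    | empty => simp
    | insert i s hi ih => rw [Finset.sum_insert hi, Finset.sum_insert hi, reflect_add, ih]
  rw [hsum]
  refine Finset.sum_congr rfl fun m hm => ?_
  have h0 := hF (MvPolynomial.mem_support_iff.1 hm)
  rw [Finsupp.weight_apply, Finsupp.sum_fintype _ _ (fun _ => by simp)] at h0
  simp only [smul_eq_mul] at h0
  rw [Polynomial.algebraMap_apply, reflect_C_mul, ← hprod m, h0]

/-- **Descent.** A system of polynomial equations and an inequality over an algebraically closed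
field `k` with a solution in an extension field has a solution in `k`. -/
theorem descent {k κ : Type*} [Field k] [IsAlgClosed k] [Field κ] [Algebra k κ] {ι J : Type*}
    [Finite ι] (P : J → MvPolynomial ι k) (Q : MvPolynomial ι k) (x : ι → κ)
    (hP : ∀ j, MvPolynomial.aeval x (P j) = 0) (hQ : MvPolynomial.aeval x Q ≠ 0) :
    ∃ y : ι → k, (∀ j, MvPolynomial.eval y (P j) = 0) ∧ MvPolynomial.eval y Q ≠ 0 := by
  by_contra hcon
  push Not at hcon
  have h1 : Q ∈ (Ideal.span (Set.range P)).radical := by
    rw [← MvPolynomial.vanishingIdeal_zeroLocus_eq_radical (K := k)]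
    rw [MvPolynomial.mem_vanishingIdeal_iff]
    intro y hy
    rw [MvPolynomial.mem_zeroLocus_iff] at hy
    apply hcon y
    intro j
    exact hy _ (Ideal.subset_span ⟨j, rfl⟩)
  obtain ⟨n, hn⟩ := h1
  have h2 : Ideal.span (Set.range P) ≤ RingHom.ker (MvPolynomial.aeval x :
      MvPolynomial ι k →ₐ[k] κ) := by
    rw [Ideal.span_le]
    rintro _ ⟨j, rfl⟩
    exact hP j
  have h3 := h2 hn
  rw [RingHom.mem_ker, map_pow] at h3
  exact pow_ne_zero n hQ h3

end Pool.Agent.H.MP_2786f0_ag
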