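import Pool.Agent.H.MP_2786f0_ag.Zero

/-!
# Numerical consequences of the absence of orbifold points
-/

namespace Pool.Agent.H.MP_2786f0_ag

open MvPolynomial ArithmeticFunction

/-- The weights `φ(q) - 2 μ(q)`. -/
noncomputable def wt (q : ℕ) : ℤ := (Nat.totient q : ℤ) - 2 * moebius q

theorem wt_nonneg {q : ℕ} (hq : 2 ≤ q) : 0 ≤ wt q := by
  unfold wt
  have h1 : moebius q ≤ 1 := (abs_le.1 abs_moebius_le_one).2
  rcases Nat.lt_or_ge 2 q with h | h
  · have h2 := Nat.totient_even h
    have h3 : 0 < Nat.totient q := Nat.totient_pos.2 (by omega)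
    obtain ⟨e, he⟩ := h2
    have h4 : 2 ≤ Nat.totient q := by omega
    omega
  · have h2 : q = 2 := by omega
    subst h2
    rw [moebius_apply_prime Nat.prime_two]
    have : Nat.totient 2 = 1 := by decide
    omega

theorem sum_wt {n : ℕ} (hn : 1 ≤ n) :
    ∑ q ∈ n.divisors.erase 1, wt q = (n : ℤ) + 1 - 2 * (if n = 1 then 1 else 0) := by
  have h1 : ∑ q ∈ n.divisors, (Nat.totient q : ℤ) = n := by
    exact_mod_cast Nat.sum_totient n
  have h2 : ∑ q ∈ n.divisors, moebius q = if n = 1 then 1 else 0 := by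
    rw [← coe_mul_zeta_apply, moebius_mul_coe_zeta, one_apply]
  have h3 : ∑ q ∈ n.divisors, wt q = (n : ℤ) - 2 * (if n = 1 then 1 else 0) := by
    unfold wt
    rw [Finset.sum_sub_distrib, ← Finset.mul_sum, h1, h2]
  have h4 : (1 : ℕ) ∈ n.divisors := Nat.one_mem_divisors.2 (by omega)
  have h5 := Finset.add_sum_erase n.divisors wt h4
  have h6 : wt 1 = -1 := by
    unfold wt
    simp
  omega

/-- Double counting of divisors. -/
theorem sum_sum_wt {ι : Type*} (s : Finset ι) (a : ι → ℕ) (M : ℕ) (ha : ∀ i ∈ s, 1 ≤ a i)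
    (hM : ∀ i ∈ s, a i < M) :
    ∑ i ∈ s, ((a i : ℤ) + 1 - 2 * (if a i = 1 then 1 else 0)) =
      ∑ q ∈ Finset.Ico 2 M, wt q * (s.filter fun i => q ∣ a i).card := by
  classical
  have h1 : ∀ i ∈ s, ((a i : ℤ) + 1 - 2 * (if a i = 1 then 1 else 0)) =
      ∑ q ∈ Finset.Ico 2 M, if q ∣ a i then wt q else 0 := by
    intro i hi
    rw [← sum_wt (ha i hi), ← Finset.sum_filter]
    refine Finset.sum_congr ?_ fun _ _ => rfl
    ext q
    have h2 := ha i hi
    have h3 := hM i hi
    rw [Finset.mem_erase, Nat.mem_divisors, Finset.mem_filter, Finset.mem_Ico]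
    constructor
    · rintro ⟨h4, h5, h6⟩
      have h7 : q ≤ a i := Nat.le_of_dvd (by omega) h5
      have h8 : q ≠ 0 := by
        rintro rfl
        exact h6 (zero_dvd_iff.1 h5)
      omega
    · rintro ⟨⟨h4, h5⟩, h6⟩
      exact ⟨by omega, h6, by omega⟩
  rw [Finset.sum_congr rfl h1, Finset.sum_comm]
  refine Finset.sum_congr rfl fun q _ => ?_
  rw [← Finset.sum_filter, Finset.sum_const, nsmul_eq_mul, mul_comm]

/-- In each stratum, for each `r ≥ 2`, there are at least as many degrees divisible by `r` as weights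
divisible by `r`. -/
theorem delta_nonneg {k : Type*} [Field k] [IsAlgClosed k] {N c : ℕ} (a : Fin N → ℕ)
    (d : Fin c → ℕ) (hd : ∀ j, 1 ≤ d j) (F : Fin c → MvPolynomial (Fin N) k)
    (hF : ∀ j, (F j).IsWeightedHomogeneous a (d j))
    (hX : ∀ x : Fin N → k, x ≠ 0 → (∀ j, eval x (F j) = 0) →
      ∀ r : ℕ, (∀ i, x i ≠ 0 → r ∣ a i) → r = 1) (D r : ℕ) (hr : 2 ≤ r) :
    ((Finset.univ.filter fun i => D < a i).filter fun i => r ∣ a i).card ≤
      ((Finset.univ.filter fun j => D < d j).filter fun j => r ∣ d j).card := by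
  classical
  by_contra hlt
  push Not at hlt
  set P : Fin N → Prop := fun i => D < a i ∧ r ∣ a i with hP
  set Q : Fin c → Prop := fun j => D < d j ∧ r ∣ d j with hQ
  set σ : Fin N → MvPolynomial {i // P i} k := fun i => if h : P i then X ⟨i, h⟩ else 0 with hσ
  have hsum : ∀ (j : Fin c) (m : Fin N →₀ ℕ), coeff m (F j) ≠ 0 → ∑ i, m i * a i = d j := by
    intro j m hm
    have h := hF j hm
    rw [Finsupp.weight_apply, Finsupp.sum_fintype _ _ (fun _ => by simp)] at h
    simpa using h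
  have hcard : Fintype.card {j // Q j} < Fintype.card {i // P i} := by
    rw [Fintype.card_subtype, Fintype.card_subtype]
    rw [Finset.filter_filter, Finset.filter_filter] at hlt
    exact hlt
  obtain ⟨x, hx0, hx⟩ := exists_zero (k := k) hcard (fun j => aeval σ (F j.1)) (by
    intro j
    have h1 : eval (fun _ => (0 : k)) (aeval σ (F j.1)) = eval (fun _ => 0) (F j.1) := by
      have h2 := comp_aeval (R := k) σ (aeval (fun _ => (0 : k)) :
        MvPolynomial {i // P i} k →ₐ[k] k)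
      have h3 := DFunLike.congr_fun h2 (F j.1)
      rw [AlgHom.comp_apply] at h3
      have h4 : (fun i => aeval (fun _ => (0 : k)) (σ i)) = fun _ => (0 : k) := by
        funext i
        rw [hσ]
        beta_reduce
        split_ifs <;> simp
      rw [h4] at h3
      exact h3
    rw [h1, eval_eq']
    refine Finset.sum_eq_zero fun m hm => ?_
    have h2 := hsum j.1 m (mem_support_iff.1 hm)
    obtain ⟨i, hi⟩ : ∃ i, m i ≠ 0 := by
      by_contra hcon
      push Not at hcon
      have h3 := hd j.1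
      rw [← h2, Finset.sum_eq_zero] at h3
      · omega
      · intro i _
        rw [hcon i, zero_mul]
    rw [Finset.prod_eq_zero (Finset.mem_univ i) (zero_pow hi), mul_zero])
  set y : Fin N → k := fun i => if h : P i then x ⟨i, h⟩ else 0 with hy
  have hyF : ∀ j, eval y (F j) = 0 := by
    intro j
    by_cases hj : Q j
    · have h2 := comp_aeval (R := k) σ (aeval x : MvPolynomial {i // P i} k →ₐ[k] k)
      have h3 := DFunLike.congr_fun h2 (F j)
      rw [AlgHom.comp_apply] at h3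
      have h4 : (fun i => aeval x (σ i)) = y := by
        funext i
        rw [hσ, hy]
        beta_reduce
        split_ifs <;> simp
      rw [h4] at h3
      exact h3.symm.trans (hx ⟨j, hj⟩)
    · rw [eval_eq']
      refine Finset.sum_eq_zero fun m hm => ?_
      have h2 := hsum j m (mem_support_iff.1 hm)
      obtain ⟨i, hi, hPi⟩ : ∃ i, m i ≠ 0 ∧ ¬ P i := by
        by_contra hcon
        push Not at hcon
        apply hj
        have hdvd : r ∣ d j := by
          rw [← h2]
          refine Finset.dvd_sum fun i _ => ?_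
          by_cases h : m i = 0
          · rw [h, zero_mul]
            exact dvd_zero _
          · exact Dvd.dvd.mul_left (hcon i h).2 _
        refine ⟨?_, hdvd⟩
        obtain ⟨i, hi⟩ : ∃ i, m i ≠ 0 := by
          by_contra hcon'
          push Not at hcon'
          have h3 := hd j
          rw [← h2, Finset.sum_eq_zero] at h3
          · omega
          · intro i _
            rw [hcon' i, zero_mul]
        have h4 := (hcon i hi).1
        have h5 : m i * a i ≤ ∑ i, m i * a i :=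
          Finset.single_le_sum (f := fun i => m i * a i) (fun _ _ => Nat.zero_le _)
            (Finset.mem_univ i)
        have h6 : a i ≤ m i * a i := Nat.le_mul_of_pos_left _ (Nat.pos_of_ne_zero hi)
        omega
      have h3 : y i = 0 := by
        rw [hy]
        beta_reduce
        rw [dif_neg hPi]
      rw [Finset.prod_eq_zero (Finset.mem_univ i) (by rw [h3, zero_pow hi]), mul_zero]
  have hy0 : y ≠ 0 := by
    intro h
    apply hx0
    funext i
    have h1 := congrFun h i.1
    rw [hy] at h1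
    beta_reduce at h1
    rw [dif_pos i.2] at h1
    exact h1
  have h1 := hX y hy0 hyF r fun i hi => by
    by_contra h
    apply hi
    rw [hy]
    beta_reduce
    rw [dif_neg]
    rintro ⟨-, h2⟩
    exact h h2
  omega

/-- The main inequality. -/
theorem fit_ineq {k : Type*} [Field k] [IsAlgClosed k] {N c : ℕ} (a : Fin N → ℕ)
    (ha : ∀ i, 1 ≤ a i) (d : Fin c → ℕ) (hd : ∀ j, 1 ≤ d j) (F : Fin c → MvPolynomial (Fin N) k)
    (hF : ∀ j, (F j).IsWeightedHomogeneous a (d j))
    (hX : ∀ x : Fin N → k, x ≠ 0 → (∀ j, eval x (F j) = 0) →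
      ∀ r : ℕ, (∀ i, x i ≠ 0 → r ∣ a i) → r = 1) (D : ℕ) :
    ∑ i ∈ Finset.univ.filter (fun i => D < a i), ((a i : ℤ) + 1 - 2 * (if a i = 1 then 1 else 0)) ≤
      ∑ j ∈ Finset.univ.filter (fun j => D < d j),
        ((d j : ℤ) + 1 - 2 * (if d j = 1 then 1 else 0)) := by
  classical
  set M : ℕ := (∑ i, a i) + (∑ j, d j) + 1 with hM
  have h1 : ∀ i, a i < M := fun i => by
    have := Finset.single_le_sum (f := a) (fun _ _ => Nat.zero_le _) (Finset.mem_univ i)
    omega
  have h2 : ∀ j, d j < M := fun j => by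
    have := Finset.single_le_sum (f := d) (fun _ _ => Nat.zero_le _) (Finset.mem_univ j)
    omega
  rw [sum_sum_wt _ a M (fun i _ => ha i) (fun i _ => h1 i),
    sum_sum_wt _ d M (fun j _ => hd j) (fun j _ => h2 j)]
  refine Finset.sum_le_sum fun q hq => ?_
  have hq2 := (Finset.mem_Ico.1 hq).1
  refine mul_le_mul_of_nonneg_left ?_ (wt_nonneg hq2)
  exact_mod_cast delta_nonneg a d hd F hF hX D q hq2

/-- First numerical condition: the columns with `a i > D` fit into the rows with `d j > D`. -/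
theorem fit2 {k : Type*} [Field k] [IsAlgClosed k] {N c : ℕ} (a : Fin N → ℕ)
    (ha : ∀ i, 1 ≤ a i) (d : Fin c → ℕ) (hd : ∀ j, 1 ≤ d j) (F : Fin c → MvPolynomial (Fin N) k)
    (hF : ∀ j, (F j).IsWeightedHomogeneous a (d j))
    (hX : ∀ x : Fin N → k, x ≠ 0 → (∀ j, eval x (F j) = 0) →
      ∀ r : ℕ, (∀ i, x i ≠ 0 → r ∣ a i) → r = 1) (D : ℕ) (hD : 1 ≤ D) :
    ∑ i ∈ Finset.univ.filter (fun i => D < a i), (a i + 1) ≤
      ∑ j ∈ Finset.univ.filter (fun j => D < d j), (d j + 1) := by
  have h := fit_ineq a ha d hd F hF hX D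
  have h1 : ∑ i ∈ Finset.univ.filter (fun i => D < a i),
      ((a i : ℤ) + 1 - 2 * (if a i = 1 then 1 else 0)) =
      ∑ i ∈ Finset.univ.filter (fun i => D < a i), ((a i + 1 : ℕ) : ℤ) := by
    refine Finset.sum_congr rfl fun i hi => ?_
    have h2 := (Finset.mem_filter.1 hi).2
    rw [if_neg (by omega)]
    push_cast
    ring
  have h2 : ∑ j ∈ Finset.univ.filter (fun j => D < d j),
      ((d j : ℤ) + 1 - 2 * (if d j = 1 then 1 else 0)) =
      ∑ j ∈ Finset.univ.filter (fun j => D < d j), ((d j + 1 : ℕ) : ℤ) := by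
    refine Finset.sum_congr rfl fun i hi => ?_
    have h2 := (Finset.mem_filter.1 hi).2
    rw [if_neg (by omega)]
    push_cast
    ring
  rw [h1, h2] at h
  exact_mod_cast h

/-- At least two weights are `1`. -/
theorem two_ones {k : Type*} [Field k] [IsAlgClosed k] {N c : ℕ} (a : Fin N → ℕ)
    (ha : ∀ i, 1 ≤ a i) (d : Fin c → ℕ) (hd : ∀ j, 1 ≤ d j) (F : Fin c → MvPolynomial (Fin N) k)
    (hF : ∀ j, (F j).IsWeightedHomogeneous a (d j))
    (hX : ∀ x : Fin N → k, x ≠ 0 → (∀ j, eval x (F j) = 0) →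
      ∀ r : ℕ, (∀ i, x i ≠ 0 → r ∣ a i) → r = 1) (hN : c + 3 ≤ N)
    (hi : ∑ j, d j + 1 ≤ ∑ i, a i) :
    ∃ i₁ i₂ : Fin N, i₁ ≠ i₂ ∧ a i₁ = 1 ∧ a i₂ = 1 := by
  classical
  have h := fit_ineq a ha d hd F hF hX 0
  have h1 : (Finset.univ.filter fun i => 0 < a i) = Finset.univ :=
    Finset.filter_true_of_mem fun i _ => ha i
  have h2 : (Finset.univ.filter fun j => 0 < d j) = Finset.univ :=
    Finset.filter_true_of_mem fun j _ => hd j
  rw [h1, h2, Finset.sum_sub_distrib, Finset.sum_sub_distrib, Finset.sum_add_distrib,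
    Finset.sum_add_distrib, ← Finset.mul_sum, ← Finset.mul_sum, Finset.sum_boole,
    Finset.sum_boole] at h
  simp only [Finset.sum_const, Finset.card_univ, Fintype.card_fin, nsmul_eq_mul, mul_one] at h
  have h3 : (∑ j, (d j : ℤ)) + 1 ≤ ∑ i, (a i : ℤ) := by exact_mod_cast hi
  have h4 : 1 < (Finset.univ.filter fun i => a i = 1).card := by
    by_contra hcon
    push Not at hcon
    have h5 : (((Finset.univ.filter fun i => a i = 1).card : ℕ) : ℤ) ≤ 1 := by exact_mod_cast hcon
    have h6 : (0 : ℤ) ≤ (((Finset.univ.filter fun j => d j = 1).card : ℕ) : ℤ) := by positivity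
    have h7 : ((c : ℤ)) + 3 ≤ N := by exact_mod_cast hN
    linarith
  obtain ⟨i₁, h5, i₂, h6, h7⟩ := Finset.one_lt_card.1 h4
  exact ⟨i₁, i₂, h7, (Finset.mem_filter.1 h5).2, (Finset.mem_filter.1 h6).2⟩

/-- Second numerical condition. -/
theorem fit1 {N c : ℕ} (a : Fin N → ℕ) (d : Fin c → ℕ) (hN : c + 3 ≤ N)
    (hi : ∑ j, d j + 1 ≤ ∑ i, a i) (i₁ i₂ : Fin N) (h : i₁ ≠ i₂) (h1 : a i₁ = 1) (h2 : a i₂ = 1) :
    ∑ j, (d j + 1) ≤ ∑ i ∈ Finset.univ.filter (fun i => i ≠ i₁ ∧ i ≠ i₂), (a i + 1) := by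
  classical
  have h3 : ∑ i, (a i + 1) = (∑ i ∈ Finset.univ.filter (fun i => i ≠ i₁ ∧ i ≠ i₂), (a i + 1)) +
      ∑ i ∈ Finset.univ.filter (fun i => ¬ (i ≠ i₁ ∧ i ≠ i₂)), (a i + 1) :=
    (Finset.sum_filter_add_sum_filter_not _ _ _).symm
  have h4 : (Finset.univ.filter fun i => ¬ (i ≠ i₁ ∧ i ≠ i₂)) = {i₁, i₂} := by
    ext i
    rw [Finset.mem_filter, Finset.mem_insert, Finset.mem_singleton]
    constructor
    · rintro ⟨-, h5⟩
      by_contra h6
      push Not at h6
      exact h5 h6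
    · rintro (rfl | rfl)
      · exact ⟨Finset.mem_univ _, fun h5 => h5.1 rfl⟩
      · exact ⟨Finset.mem_univ _, fun h5 => h5.2 rfl⟩
  rw [h4, Finset.sum_pair h, h1, h2, Finset.sum_add_distrib, Finset.sum_const, Finset.card_univ,
    Fintype.card_fin] at h3
  rw [Finset.sum_add_distrib, Finset.sum_const, Finset.card_univ, Fintype.card_fin]
  simp only [smul_eq_mul, mul_one] at h3 ⊢
  omega

end Pool.Agent.H.MP_2786f0_ag
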