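import Pool.Agent.H.MP_2786f0_ag.C.Assemble
import Pool.Agent.H.MP_2786f0_ag.C.Numerics
import Pool.Agent.H.MP_2786f0_ag.O.Open

/-!
# Curves of degree one: the theorem
-/

namespace Pool.Agent.H.MP_2786f0_ag

open Polynomial

theorem exists_degree_one {k : Type*} [Field k] [IsAlgClosed k] {N c : ℕ} (a : Fin N → ℕ)
    (ha : ∀ i, 1 ≤ a i) (d : Fin c → ℕ) (hd : ∀ j, 1 ≤ d j) (F : Fin c → MvPolynomial (Fin N) k)
    (hF : ∀ j, (F j).IsWeightedHomogeneous a (d j)) (hN : c + 3 ≤ N)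
    (hi : ∑ j, d j + 1 ≤ ∑ i, a i)
    (hX : ∀ x : Fin N → k, x ≠ 0 → (∀ j, MvPolynomial.eval x (F j) = 0) →
      ∀ r : ℕ, (∀ i, x i ≠ 0 → r ∣ a i) → r = 1) :
    ∃ f : Fin N → MvPolynomial (Fin 2) k, (∀ i, (f i).IsHomogeneous (a i)) ∧
      (∀ u : Fin 2 → k, u ≠ 0 → ∃ i, MvPolynomial.eval u (f i) ≠ 0) ∧
      ∀ j, MvPolynomial.aeval f (F j) = 0 := by
  obtain ⟨i₁, i₂, h12, h1, h2⟩ := two_ones a ha d hd F hF hX hN hi
  obtain ⟨F0, L, hL1, hL2, hL3, t, φ, hF0, ht, hφ, hφ1, hφ2, hφF⟩ :=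
    exists_over_extension a d hd i₁ i₂ h12 h1 h2 (fit1 a d hN hi i₁ i₂ h12 h1 h2)
      (fun D hD => fit2 a ha d hd F hF hX D hD) F hF
  refine compactness a ha d F0 F hF0 hF hX t ht φ hφ hφF ?_
  intro p α β h
  have e1 := h i₁
  have e2 := h i₂
  rw [hφ1, h1, pow_one] at e1
  rw [hφ2, h2, pow_one] at e2
  have c1 := congrArg (fun q => coeff q 1) e1
  have c2 := congrArg (fun q => coeff q 1) e2
  have c3 := congrArg (fun q => coeff q 0) e2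
  simp only [coeff_X_one, coeff_C_mul, coeff_add, coeff_C_succ, coeff_one,
    coeff_C_zero] at c1 c2 c3
  simp at c1 c2 c3
  rcases c2 with h3 | h3
  · rw [h3, zero_mul] at c3
    exact one_ne_zero c3
  · rw [h3, mul_zero] at c1
    exact one_ne_zero c1

end Pool.Agent.H.MP_2786f0_ag
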