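import Pool.Agent.H.MP_2786f0_ag.C.Basic

/-!
# No common root, and the binary forms
-/

namespace Pool.Agent.H.MP_2786f0_ag

open Polynomial

variable {k : Type*} [Field k] {N : ℕ}

/-- A solution with nonzero coefficient of `X ^ (a i₀)`, `a i₀` nonzero in `k`, vanishing coefficient
of `X ^ (a i₀ - 1)` in `φ i₀` and some other lower coefficient has no common root. -/
theorem no_common_root {c : ℕ} (a : Fin N → ℕ) (ha : ∀ i, 1 ≤ a i) (d : Fin c → ℕ)
    (F : Fin c → MvPolynomial (Fin N) k) (hF : ∀ j, (F j).IsWeightedHomogeneous a (d j))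
    (hX : ∀ x : Fin N → k, x ≠ 0 → (∀ j, MvPolynomial.eval x (F j) = 0) →
      ∀ r : ℕ, (∀ i, x i ≠ 0 → r ∣ a i) → r = 1)
    (φ : Fin N → k[X]) (hφ : ∀ i, (φ i).natDegree ≤ a i)
    (hφF : ∀ j, MvPolynomial.aeval φ (F j) = 0) (i₀ : Fin N) (hp0 : (φ i₀).coeff (a i₀) ≠ 0)
    (ha0 : (a i₀ : k) ≠ 0) (hp1 : (φ i₀).coeff (a i₀ - 1) = 0) (i₁ : Fin N) (m : ℕ)
    (hm : m < a i₁) (hne : (φ i₁).coeff m ≠ 0) (u : k) : ∃ i, (φ i).eval u ≠ 0 := by
  by_contra hcon
  push Not at hcon
  have hback : ∀ i, ((φ i).comp (X + C u)).comp (X - C u) = φ i := by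
    intro i
    rw [comp_assoc, add_comp, X_comp, C_comp, sub_add_cancel, comp_X]
  have hlim := limit a ha d F hF hX (fun i => (φ i).comp (X + C u)) (fun i => by
      refine (natDegree_comp_le).trans ?_
      rw [natDegree_X_add_C, mul_one]
      exact hφ i)
    ⟨i₀, fun h => by
      have h1 := hback i₀
      rw [h, zero_comp] at h1
      apply hp0
      rw [← h1, coeff_zero]⟩
    (fun j => by
      have h1 : MvPolynomial.aeval (fun i => (φ i).comp (X + C u)) (F j) =
          (aeval (X + C u : k[X])) (MvPolynomial.aeval φ (F j)) := by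
        rw [← AlgHom.comp_apply, MvPolynomial.comp_aeval]
        rfl
      rw [h1, hφF j, map_zero])
    (fun i => by
      rw [eval_comp, eval_add, eval_X, eval_C, zero_add]
      exact hcon i)
  have hφi : ∀ i, φ i = C ((φ i).coeff (a i)) * (X - C u) ^ a i := by
    intro i
    have h1 := hlim i
    set e := ((φ i).comp (X + C u)).coeff (a i)
    have h2 : φ i = C e * (X - C u) ^ a i := by
      rw [← hback i, h1, mul_comp, C_comp, X_pow_comp]
    have h3 : (φ i).coeff (a i) = e := by
      rw [h2, coeff_C_mul, coeff_sub_pow, Nat.sub_self,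
        pow_zero, one_mul, Nat.choose_self, Nat.cast_one, mul_one]
    rw [h3]
    exact h2
  have hu : u = 0 := by
    have h1 := hp1
    rw [hφi i₀, coeff_C_mul, coeff_sub_pow] at h1
    have h4 : a i₀ - (a i₀ - 1) = 1 := by
      have := ha i₀
      omega
    rw [h4, pow_one, Nat.choose_symm (ha i₀), Nat.choose_one_right] at h1
    rcases mul_eq_zero.1 h1 with h5 | h5
    · exact absurd h5 hp0
    · rcases mul_eq_zero.1 h5 with h6 | h6
      · exact neg_eq_zero.1 h6
      · exact absurd h6 ha0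
  apply hne
  rw [hφi i₁, hu, C_0, sub_zero, coeff_C_mul_X_pow, if_neg (by omega)]

/-- The binary forms. -/
theorem exists_forms [IsAlgClosed k] {c : ℕ} (a : Fin N → ℕ) (d : Fin c → ℕ)
    (F : Fin c → MvPolynomial (Fin N) k) (hF : ∀ j, (F j).IsWeightedHomogeneous a (d j))
    (φ : Fin N → k[X]) (hφ : ∀ i, (φ i).natDegree ≤ a i)
    (hφF : ∀ j, MvPolynomial.aeval φ (F j) = 0) (i₀ : Fin N) (hp0 : (φ i₀).coeff (a i₀) ≠ 0)
    (hr : ∀ u : k, ∃ i, (φ i).eval u ≠ 0) :
    ∃ f : Fin N → MvPolynomial (Fin 2) k, (∀ i, (f i).IsHomogeneous (a i)) ∧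
      (∀ u : Fin 2 → k, u ≠ 0 → ∃ i, MvPolynomial.eval u (f i) ≠ 0) ∧
      (∀ j, MvPolynomial.aeval f (F j) = 0) := by
  refine ⟨fun i => hom (a i) (φ i), fun i => hom_homogeneous _ _, ?_, ?_⟩
  · intro u hu
    by_cases h : u 1 = 0
    · refine ⟨i₀, ?_⟩
      rw [eval_hom_zero _ _ _ h]
      have h0 : u 0 ≠ 0 := by
        intro h0
        apply hu
        funext j
        fin_cases j
        · exact h0
        · exact h
      exact mul_ne_zero (pow_ne_zero _ h0) hp0
    · obtain ⟨i, hi⟩ := hr (u 0 / u 1)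
      refine ⟨i, ?_⟩
      rw [eval_hom _ _ (hφ i) _ h]
      exact mul_ne_zero (pow_ne_zero _ h) hi
  · intro j
    apply MvPolynomial.funext
    intro u
    rw [map_zero]
    have h1 : MvPolynomial.eval u (MvPolynomial.aeval (fun i => hom (a i) (φ i)) (F j)) =
        MvPolynomial.eval (fun i => MvPolynomial.eval u (hom (a i) (φ i))) (F j) := by
      have h2 := MvPolynomial.comp_aeval (R := k) (fun i => hom (a i) (φ i))
        (MvPolynomial.aeval u : MvPolynomial (Fin 2) k →ₐ[k] k)
      have h3 := DFunLike.congr_fun h2 (F j)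
      exact h3
    rw [h1]
    by_cases h : u 1 = 0
    · simp only [eval_hom_zero _ _ _ h]
      rw [eval_scale a (d j) (F j) (hF j)]
      have h2 := (aeval_degree' a (d j) (F j) (hF j) φ hφ).2
      rw [hφF j, coeff_zero] at h2
      have h3 : MvPolynomial.eval (fun i => (φ i).coeff (a i)) (F j) = 0 := h2.symm
      rw [h3, mul_zero]
    · have h2 : (fun i => MvPolynomial.eval u (hom (a i) (φ i))) =
          fun i => u 1 ^ a i * (φ i).eval (u 0 / u 1) := by
        funext i
        exact eval_hom _ _ (hφ i) _ h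
      rw [h2, eval_scale a (d j) (F j) (hF j)]
      have h3 : MvPolynomial.eval (fun i => (φ i).eval (u 0 / u 1)) (F j) =
          (MvPolynomial.aeval φ (F j)).eval (u 0 / u 1) := by
        have h4 := MvPolynomial.comp_aeval (R := k) φ
          (aeval (u 0 / u 1) : k[X] →ₐ[k] k)
        have h5 := DFunLike.congr_fun h4 (F j)
        exact h5.symm
      rw [h3, hφF j, eval_zero, mul_zero]

end Pool.Agent.H.MP_2786f0_ag
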