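import Pool.Agent.H.MP_2786f0_ag.C.Basic

/-!
# Scaling over a valuation ring of an algebraically closed field
-/

namespace Pool.Agent.H.MP_2786f0_ag

open Polynomial

/-- After multiplication of `x s` by `l ^ (w s)`, for a suitable `l`, all are integral, and one is a
unit. -/
theorem exists_scale {K : Type*} [Field K] [IsAlgClosed K] (O : ValuationSubring K) {S : Type*}
    [Finite S] (x : S → K) (w : S → ℕ) (hw : ∀ s, 1 ≤ w s) (h0 : ∃ s, x s ≠ 0) :
    ∃ l : K, l ≠ 0 ∧ (∀ s, l ^ w s * x s ∈ O) ∧ ∃ s, O.valuation (l ^ w s * x s) = 1 := by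
  classical
  have := Fintype.ofFinite S
  set L : ℕ := ∏ s, w s with hL
  have hL0 : 0 < L := Finset.prod_pos fun s _ => hw s
  have hdvd : ∀ s, w s ∣ L := fun s => Finset.dvd_prod_of_mem w (Finset.mem_univ s)
  obtain ⟨s₁, hs₁⟩ := h0
  obtain ⟨s₀, -, hmax⟩ := Finset.exists_max_image (Finset.univ : Finset S)
    (fun s => O.valuation (x s ^ (L / w s))) ⟨s₁, Finset.mem_univ _⟩
  have hq : ∀ s, 0 < L / w s := fun s => Nat.div_pos (Nat.le_of_dvd hL0 (hdvd s)) (hw s)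
  have hne : x s₀ ^ (L / w s₀) ≠ 0 := by
    intro h
    have h1 := hmax s₁ (Finset.mem_univ _)
    rw [h, map_zero] at h1
    have h2 : O.valuation (x s₁ ^ (L / w s₁)) = 0 := le_antisymm h1 zero_le
    rw [map_eq_zero] at h2
    exact pow_ne_zero _ hs₁ h2
  obtain ⟨l, hl⟩ := IsAlgClosed.exists_pow_nat_eq (x s₀ ^ (L / w s₀))⁻¹ hL0
  have hl0 : l ≠ 0 := by
    rintro rfl
    rw [zero_pow hL0.ne'] at hl
    exact inv_ne_zero hne hl.symm
  have hkey : ∀ s, (l ^ w s * x s) ^ (L / w s) = (x s₀ ^ (L / w s₀))⁻¹ * x s ^ (L / w s) := by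
    intro s
    rw [mul_pow, ← pow_mul, Nat.mul_div_cancel' (hdvd s), hl]
  have hv : ∀ s, O.valuation ((x s₀ ^ (L / w s₀))⁻¹ * x s ^ (L / w s)) ≤ 1 := by
    intro s
    rw [map_mul, map_inv₀]
    have h1 : O.valuation (x s₀ ^ (L / w s₀)) ≠ 0 := by
      rw [Ne, map_eq_zero]
      exact hne
    calc (O.valuation (x s₀ ^ (L / w s₀)))⁻¹ * O.valuation (x s ^ (L / w s))
        ≤ (O.valuation (x s₀ ^ (L / w s₀)))⁻¹ * O.valuation (x s₀ ^ (L / w s₀)) :=
          mul_le_mul_right (hmax s (Finset.mem_univ _)) _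
      _ = 1 := inv_mul_cancel₀ h1
  refine ⟨l, hl0, fun s => ?_, s₀, ?_⟩
  · rw [← O.valuation_le_one_iff]
    have h1 := hv s
    rw [← hkey s, map_pow] at h1
    exact (pow_le_one_iff (hq s).ne').1 h1
  · have h1 := congrArg O.valuation (hkey s₀)
    rw [inv_mul_cancel₀ hne, map_one, map_pow] at h1
    rcases (pow_eq_one_iff).1 h1 with h2 | h2
    · exact h2
    · exact absurd h2 (hq s₀).ne'

end Pool.Agent.H.MP_2786f0_ag
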